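import Pool.Agent.N783.PQ.Final
import Pool.Agent.N783.PQ.Cmp

/-!
# A positive proportion of all odd hyperelliptic Jacobians over `ℚ` has trivial `Ш[2^∞]` and a
uniquely 2-divisible group of rational points

Let `g ≥ 1`. We consider ALL polynomials `f = x ^ (2 g + 1) + a_(2 g - 1) x ^ (2 g - 1) + ... + a_0`
with integral coefficients, ordered by the height: `|a_i| ≤ B ^ (2 g + 1 - i)`. (Every hyperelliptic
curve of genus `g` over `ℚ` with a rational Weierstrass point, and for `g = 1` every elliptic curve
over `ℚ`, has an equation `y² = f(x)` with such an `f`.) We prove that for a positive proportion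
of them the Jacobian `J` of `y² = f(x)` has a trivial 2-Selmer group over `ℚ`, so that
multiplication by two is bijective on `J(ℚ)` (by the theorem of Mordell and Weil this means that
`J(ℚ)` is finite of odd order) and the 2-primary part of the Tate-Shafarevich group of `J` is zero.

The group of the points of `J` over an algebraically closed field `L` is the class group of the ring
`L[x, y] / (y² - f(x))` of the functions that are regular outside of the point at infinity;
`JacQ a` is the group of the points that are invariant under the absolute Galois group of `ℚ`; `Sha a`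
is the group of the continuous 1-cocycles that are trivial at all places modulo the coboundaries.
These definitions are in the file `Pool/Agent/N783/PQ/ShaDef.lean`.

Proof (project PQ; `Pool/Agent/N783/PQ/{Def,Cnt,Lat,Loc,Sha,Final}.lean`, with the parts in
`Pool/Agent/N*/PQ` proved by helpers 2, 7, 27, 42, 73, 134, 216, 262, 271, 316, 322, 340, 346, 348,
383, 394, 400, 456, 457, 488, 490, 498, 507, 530, 595, 644, 691, 747, 755, 776, 833, 835, 850, 855,
878, 891, 896, 951; method of the projects PP (helper874) and PJ (helper352) over `k(t)`). Let `S` be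
a finite set of primes modulo which `f` is `x` times an irreducible polynomial. One of the twists
`D ^ (2 g + 1) f(x / D)` of `f` by the products `D` of primes in `S` has a trivial 2-Selmer group
unless `f` has a nontrivial class which is a square at the primes in `S` and in the local image at the
other places. This is linear algebra with a reciprocity law (product formula for Hasse invariants).
These classes, and the primes at which the discriminant of `f` is divisible by a square, give integral
pairs of symmetric matrices `(A, B)` with `det(A x - B) = ± f(x)`, not of the standard type; they are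
counted by reduction theory in boxes, and the density of the distinguished pairs modulo the primes in
`S` gives a factor `2 ^ (-#S)`.
-/

set_option autoImplicit false

namespace Pool.Agent.Results.MP_a43263_nt.AllOddHyperelliptic

open Polynomial
open Pool.Agent.N783.PQ.SD

/-- the tuples of the coefficients with `|a_i| ≤ B ^ (2 g + 1 - i)`, `i < 2 g` -/
def Box (g B : ℕ) : Set (Fin (2 * g) → ℤ) := {a | ∀ i, |a i| ≤ (B : ℤ) ^ (2 * g + 1 - (i : ℕ))}

/-- The 2-Selmer group over `ℚ` of the Jacobian `J` of `y² = f(x)` is zero: every continuous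
1-cocycle with values in `J[2]`, which is locally a coboundary with values in the points of `J` over
`ℝ` and all `ℚ_p`, is the coboundary of a point of `J[2]`. -/
def SelmerTrivial {g : ℕ} (a : Fin (2 * g) → ℤ) : Prop :=
  ∀ c : GQ → Jac a QB, (∀ σ, 2 • c σ = 0) → IsShaCocycle a c →
    ∃ T : Jac a QB, 2 • T = 0 ∧ ∀ σ, c σ = act a σ T - T

/-- the 2-primary part of the Tate-Shafarevich group of the Jacobian of `y² = f(x)` is zero -/
def ShaTrivial {g : ℕ} (a : Fin (2 * g) → ℤ) : Prop :=
  ∀ (n : ℕ) (c : Sha a), 2 ^ n • c = 0 → c = 0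

/-- multiplication by two is bijective on the group `J(ℚ)` of the rational points of the Jacobian
of `y² = f(x)` -/
def UniquelyTwoDivisible {g : ℕ} (a : Fin (2 * g) → ℤ) : Prop :=
  Function.Bijective fun P : JacQ a => 2 • P

/-! ### Proof -/

lemma selmer_of {g : ℕ} {a : Fin (2 * g) → ℤ} (hirr : Irreducible (Pool.Agent.N783.PQ.fol a ℚ))
    (h : Pool.Agent.N783.PQ.SelZero (Pool.Agent.N783.PQ.pol a)) : SelmerTrivial a := by
  intro c hc2 hc
  obtain ⟨c', rfl⟩ := (eF a).surjective c
  have h1 : Pool.Agent.N783.PQ.IsShaCocycle a c' := (sha_iff a c').2 hc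
  obtain ⟨T, hT, hcT⟩ := Pool.Agent.N783.PQ.rep g a hirr h c' h1 (fun σ => by
    have h2 := hc2 σ
    rw [eF_apply, two_nsmul, ← map_add] at h2
    exact (AddEquiv.map_eq_zero_iff (eJ a QB)).1 h2)
  refine ⟨eJ a QB T, ?_, fun σ => ?_⟩
  · rw [two_nsmul, ← map_add, hT]
    exact AddEquiv.map_zero (eJ a QB)
  · rw [eF_apply, hcT, map_sub, act_eq]

lemma sha_of {g : ℕ} {a : Fin (2 * g) → ℤ}
    (h : ∀ c : Pool.Agent.N783.PQ.Sha a, 2 • c = 0 → c = 0) : ShaTrivial a := by
  have h1 : ∀ c : Sha a, 2 • c = 0 → c = 0 := by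
    intro c hc
    have h2 : 2 • (eS a).symm c = 0 := by rw [← map_nsmul, hc, map_zero]
    have h3 := h _ h2
    rw [← (eS a).apply_symm_apply c, h3]
    exact AddEquiv.map_zero (eS a)
  intro n
  induction n with
  | zero => intro c hc; simpa using hc
  | succ n ih =>
    intro c hc
    apply h1
    apply ih
    rw [smul_smul, ← pow_succ]
    exact hc

lemma div_of {g : ℕ} {a : Fin (2 * g) → ℤ}
    (h1 : ∀ P : Pool.Agent.N783.PQ.JacQ a, 2 • P = 0 → P = 0)
    (h2 : ∀ P : Pool.Agent.N783.PQ.JacQ a, ∃ Q : Pool.Agent.N783.PQ.JacQ a, 2 • Q = P) :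
    UniquelyTwoDivisible a := by
  constructor
  · intro P Q hPQ
    have h3 : 2 • (eQ a).symm (P - Q) = 0 := by
      rw [← map_nsmul, smul_sub]
      have h4 : 2 • P = 2 • Q := hPQ
      rw [h4, sub_self, map_zero]
    have h5 := h1 _ h3
    rw [EmbeddingLike.map_eq_zero_iff] at h5
    exact sub_eq_zero.1 h5
  · intro P
    obtain ⟨Q, hQ⟩ := h2 ((eQ a).symm P)
    refine ⟨eQ a Q, ?_⟩
    show 2 • eQ a Q = P
    rw [← map_nsmul, hQ, AddEquiv.apply_symm_apply]

/-- **Theorem.** For every `g ≥ 1` a positive proportion of all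
`f = x ^ (2 g + 1) + a_(2 g - 1) x ^ (2 g - 1) + ... + a_0` with integral coefficients, ordered by
height, is irreducible over `ℚ` and the Jacobian `J` of `y² = f(x)` has a trivial 2-Selmer group,
`J(ℚ)` is uniquely divisible by two and the 2-primary part of `Ш(J)` is zero. -/
theorem result (g : ℕ) (hg : 1 ≤ g) : ∃ c : ℝ, 0 < c ∧ ∃ B₀ : ℕ, ∀ B ≥ B₀, (Box g B).Finite ∧
    c * ((Box g B).ncard : ℝ) ≤
      ({a | a ∈ Box g B ∧ Irreducible (pol a ℚ) ∧ SelmerTrivial a ∧ UniquelyTwoDivisible a ∧
        ShaTrivial a}.ncard : ℝ) := by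
  obtain ⟨c, hc, B₀, h⟩ := Pool.Agent.N783.PQ.final g hg
  refine ⟨c, hc, B₀, fun B hB => ?_⟩
  obtain ⟨hfin, hle⟩ := h B hB
  refine ⟨hfin, hle.trans ?_⟩
  have hsub : {a : Fin (2 * g) → ℤ | (∀ i, |a i| ≤ (B : ℤ) ^ (2 * g + 1 - (i : ℕ))) ∧
      Irreducible (Pool.Agent.N783.PQ.fol a ℚ) ∧
      Pool.Agent.N783.PQ.SelZero (Pool.Agent.N783.PQ.pol a) ∧
      (∀ c : Pool.Agent.N783.PQ.Sha a, 2 • c = 0 → c = 0) ∧
      (∀ P : Pool.Agent.N783.PQ.JacQ a, 2 • P = 0 → P = 0) ∧
      (∀ P : Pool.Agent.N783.PQ.JacQ a, ∃ Q : Pool.Agent.N783.PQ.JacQ a, 2 • Q = P)} ⊆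
      {a | a ∈ Box g B ∧ Irreducible (pol a ℚ) ∧ SelmerTrivial a ∧ UniquelyTwoDivisible a ∧
        ShaTrivial a} := by
    rintro a ⟨h1, h2, h3, h4, h5, h6⟩
    exact ⟨h1, h2, selmer_of h2 h3, div_of h5 h6, sha_of h4⟩
  exact_mod_cast Set.ncard_le_ncard hsub (hfin.subset fun a ha => ha.1)

end Pool.Agent.Results.MP_a43263_nt.AllOddHyperelliptic
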