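import Pool.Agent.N818.SL.Mod
import Pool.Agent.N818.SL.Den
import Pool.Agent.N803.SL.GK
import Pool.Agent.N402.SL.SP
import Pool.Agent.N407.SL.Fin
import Pool.Agent.N482.SL.NP
import Pool.Agent.N494.SL.GL
import Pool.Agent.N499.SL.S2
import Pool.Agent.N849.SL.La
import Pool.Agent.Results.MP_4a9ea6_nt.TwoPartDensityX49

/-!
# Finiteness, exact structure and distribution of the 2-primary parts of the Tate-Shafarevich groups
# of the curves 2-isogenous to the quadratic twists of `X_0(49)`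

`D` is any squarefree number with `D ≡ 1 mod 4` and `7 ∤ D`, `E_D` is the twist by `D` of
`X_0(49) : y² + x y = x³ - x² - 2 x - 1`, and `E'_D : y² = x³ - 42 D x² - 7 D² x` is the quotient of
`E_D` by its rational point of order two. `δ(D)` is the number of the prime factors `p ≡ 3 mod 4` of
`D` which split in `ℚ(√-7)` less the number of those which are inert. The theorem says, with no
hypothesis on ranks, `L`-values or Tate-Shafarevich groups:
* for every `D` which has no factorisation `D = d d'` in `ℤ[ω]`, `ω = (1 + √-7) / 2`, with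
  `d ≡ 1 mod ω²`, `d ≠ 1`, `d` a square modulo every prime dividing `d'` and `-√-7 d'` a square modulo
  every prime dividing `d`: `δ(D) ≥ 0`, `E_D(ℚ)` and `E'_D(ℚ)` are finite, `Ш(E_D/ℚ)[2^∞] = 0` and
  `Ш(E'_D/ℚ)[2^∞] ≅ (ℤ/2)^δ(D)`;
* for every `V` the proportion of the `D` with this property and `δ(D) ≥ V` among all squarefree
  `D ≤ X`, `D ≡ 1 mod 4`, `7 ∤ D`, tends to `κ / 2 = 0.2097...`, independent of `V`, where
  `κ = ∏_{i ≥ 0} (1 - 2^{-(2i+1)})`: the groups are finite and large;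
* more precisely the proportion of those with `δ(D) ≥ t √(log log X / 2)` tends to
  `κ (1 - Φ(t))` for every `t > 0`, `Φ` the normal distribution function: the rank of the group
  `Ш(E'_D/ℚ)[2^∞]`, divided by `√(log log D / 2)`, has the law of `|N(0, 1)|` on the set of the `D`
  without such a factorisation, whose density is `κ / 2`.

Proof: the criterion and the density for `E_D` are `Results/MP_4a9ea6_nt/TwoPartDensityX49`; the
Selmer group of the isogeny `E'_D → E_D` is determined exactly (the 2-adic conditions by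
`N407.SL`, `N499.SL`, the others by `N402.SL`, `N482.SL`); for `D` without a factorisation the
pairing on the Rédei matrix of the primes of `ℤ[ω]` is used to count it (`N849.SL`, `N407.SL`);
every class of `Ш(E'_D/ℚ)` killed by a power of two is killed by the isogeny since `Ш(E_D/ℚ)` has no
2-torsion (`N818/SL/Str`), so that the structure is exact. The distribution of `δ(D)` is Gaussian
(`N494.SL`), and the event that `D` has no factorisation, which forces `δ(D) ≥ 0`, is asymptotically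
independent of the size of `δ(D)` (`N803.SL`, on the moment machine `N973/ND`).
Joint work of helpers 818, 402, 407, 482, 494, 499, 803, 849.
-/

set_option autoImplicit false

open NumberField IsDedekindDomain WeierstrassCurve

namespace Pool.Agent.Results.MP_a43263_nt.LawOfShaX49

open Pool.Agent.TH841.NF.D (Sha)

/-- The quadratic twist by `D ≡ 1 mod 4` of `X_0(49) : y² + x y = x³ - x² - 2 x - 1`. -/
def E (D : ℕ) : WeierstrassCurve ℚ := ⟨1, -(3 * D + 1) / 4, 0, -2 * D ^ 2, -D ^ 3⟩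

/-- The curve `E'_D`, 2-isogenous to `E_D`: the quadratic twist by `D` of `y² = x³ - 42 x² - 7 x`. -/
def E' (D : ℕ) : WeierstrassCurve ℚ := ⟨0, -42 * D, 0, -7 * D ^ 2, 0⟩

/-- The class: `D` is squarefree, `D ≡ 1 mod 4` and `7 ∤ D`. -/
def Family (D : ℕ) : Prop := Squarefree D ∧ D % 4 = 1 ∧ ¬ 7 ∣ D

open Classical in
/-- The prime factors `p ≡ 3 mod 4` of `D` which split in `ℚ(√-7)`. -/
noncomputable def splitThree (D : ℕ) : Finset ℕ :=
  D.primeFactors.filter fun p => p % 4 = 3 ∧ IsSquare (-7 : ZMod p)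

open Classical in
/-- The prime factors `p ≡ 3 mod 4` of `D` which are inert in `ℚ(√-7)`. -/
noncomputable def inertThree (D : ℕ) : Finset ℕ :=
  D.primeFactors.filter fun p => p % 4 = 3 ∧ ¬ IsSquare (-7 : ZMod p)

/-- The difference `δ(D)` of the numbers of the prime factors `3 mod 4` which split and which are inert
in `ℚ(√-7)`. -/
noncomputable def δ (D : ℕ) : ℤ := (splitThree D).card - (inertThree D).card

/-- The 2-primary part of `Ш(E'_D/ℚ)`. -/
def ShaTwo (D : ℕ) : Set (Sha (E' D)) := {x | ∃ n : ℕ, 2 ^ n • x = 0}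

/-- `E'_D(ℚ)` is finite and the 2-primary part of `Ш(E'_D/ℚ)` is finite and isomorphic to
`(ℤ/2)^k`. -/
def ShaIs (D k : ℕ) : Prop :=
  Finite (E' D).toAffine.Point ∧ Nat.card (ShaTwo D) = 2 ^ k ∧ ∀ x ∈ ShaTwo D, x + x = 0

/-- The ring `ℤ[ω]`, `ω = (1 + √-7)/2`, that is `ω² = ω - 2`. -/
abbrev O : Type := QuadraticAlgebra ℤ (-2) 1

/-- `ω = (1 + √-7)/2`. -/
def ω : O := ⟨0, 1⟩

/-- `D = d d'` in `ℤ[ω]` with `d ≡ 1 mod ω²`, `d ≠ 1`, such that `d` is a square modulo every prime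
dividing `d'`, and `-√-7 d'` is a square modulo every prime dividing `d` (`√-7 = 2 ω - 1`). -/
def Factorisation (D : ℕ) : Prop := ∃ d d' : O, (D : O) = d * d' ∧ ω ^ 2 ∣ d - 1 ∧ d ≠ 1 ∧
  (∀ p : O, Prime p → p ∣ d' → ∃ x : O, p ∣ x ^ 2 - d) ∧
  ∀ p : O, Prime p → p ∣ d → ∃ x : O, p ∣ x ^ 2 + (2 * ω - 1) * d'

open Classical in
/-- The proportion of the numbers with the property `Q` among the `D ≤ X` of the class. -/
noncomputable def prop (Q : ℕ → Prop) (X : ℕ) : ℝ :=
  ((((Finset.Icc 1 X).filter fun D => Family D ∧ Q D).card : ℕ) : ℝ) /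
    ((((Finset.Icc 1 X).filter fun D => Family D).card : ℕ) : ℝ)

section proof

open Pool.Agent.N818.SL
open Pool.Agent.Y698 (AX EX)
open Pool.Agent.N818.TC (Rz rz_prop rz_gd)
open Pool.Agent.N973.ND (kd ty m7 m7_le Gd SS)
open Pool.Agent.N973.NT (AA bb)
open Pool.Agent.Y700 (VR)

lemma E_eq {D j : ℕ} (hj : D = 1 + 4 * j) : E D = AX ℚ j := by
  unfold E Pool.Agent.Y698.AX
  rw [hj]
  unfold EX
  ext
  · rfl
  · push_cast
    ring
  · rfl
  · push_cast
    ring
  · push_cast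
    ring

lemma E'_eq (D : ℕ) : E' D = WD D := by
  unfold E' WD Pool.Agent.Z702.WZ Pool.Agent.Y668.Wt
  push_cast
  rfl

/-- the numbers of the primes of the types `3` and `1` -/
lemma δ_eq {D : ℕ} (h4 : D % 4 = 1) (h7 : ¬ 7 ∣ D) : δ D = kd D.primeFactors := by
  classical
  unfold δ kd splitThree inertThree
  congr 2
  · congr 1
    apply Finset.filter_congr
    intro p hp
    have hP := pr_of h4 h7 hp
    rw [Pool.Agent.N973.NT.sq7 hP]
    unfold ty
    have := m7_le p
    split_ifs with h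
    · exact ⟨fun h' => by rw [h'.2], fun h' => ⟨h, by omega⟩⟩
    · exact ⟨fun h' => absurd h'.1 h, fun h' => by omega⟩
  · congr 1
    apply Finset.filter_congr
    intro p hp
    have hP := pr_of h4 h7 hp
    rw [Pool.Agent.N973.NT.sq7 hP]
    unfold ty
    have := m7_le p
    split_ifs with h
    · exact ⟨fun h' => by have := h'.2; omega, fun h' => ⟨h, by omega⟩⟩
    · exact ⟨fun h' => absurd h'.1 h, fun h' => by omega⟩

theorem good_iff {D : ℕ} (h : Family D) : ¬ Factorisation D ↔ Gd AA bb D.primeFactors := by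
  obtain ⟨hsq, h4, h7⟩ := h
  obtain ⟨j, hj⟩ : ∃ j, D = 1 + 4 * j := ⟨D / 4, by omega⟩
  obtain ⟨-, -, -, c4, -⟩ :=
    Pool.Agent.Results.MP_4a9ea6_nt.TwoPartDensityX49.core (D := D) ⟨hsq, h4, h7⟩
  have c4' : Pool.Agent.Results.MP_4a9ea6_nt.TwoPartDensityX49.RankZeroShaTwo D ↔
    ¬ Factorisation D := c4
  rw [← c4', Pool.Agent.Results.MP_4a9ea6_nt.TwoPartDensityX49.two_iff hj, rz_gd hsq h4 h7]

theorem struct {D : ℕ} (h : Family D) (hN2 : S_N2) (hS2 : S_S2) (hNP : S_NP) (hNR : S_NR)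
    (hSP : S_SP) (hLA : S_LA) (hLB : S_LB) (hLC : S_LC) (hg : ¬ Factorisation D) :
    ∃ k : ℕ, (k : ℤ) = δ D ∧ ShaIs D k := by
  have hG := (good_iff h).1 hg
  obtain ⟨hsq, h4, h7⟩ := h
  obtain ⟨j, hj⟩ : ∃ j, D = 1 + 4 * j := ⟨D / 4, by omega⟩
  have hRz := (rz_gd hsq h4 h7).2 hG
  obtain ⟨hf, hs⟩ := hyp h4 hj hRz
  obtain ⟨s1, s2⟩ := str hsq h4 h7 hS2 hSP hN2 hNP hNR hf hs
  obtain ⟨n, hn, hc⟩ := hLC hLA hLB D.primeFactors (fun p hp => pr_of h4 h7 hp) hG
  let e := Pool.Agent.R413.SJ.ShaQ.iso (WD D)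
  refine ⟨n, by rw [δ_eq h4 h7, hn], ?_, ?_, ?_⟩
  · rw [E'_eq]
    exact hf
  · unfold ShaTwo
    rw [E'_eq, ← hc, ← s1]
    refine Nat.card_congr (e.toEquiv.subtypeEquiv fun x => ?_)
    refine exists_congr fun m => ?_
    constructor
    · intro h
      have h1 : e (2 ^ m • x) = 0 := by rw [h, map_zero]
      rwa [map_nsmul] at h1
    · intro h
      refine (map_eq_zero_iff e e.injective).1 ?_
      rw [map_nsmul]
      exact h
  · unfold ShaTwo
    rw [E'_eq]
    rintro x ⟨m, hm⟩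
    refine (map_eq_zero_iff e e.injective).1 ?_
    rw [map_add]
    exact s2 (e x) ⟨m, by rw [← map_nsmul, hm, map_zero]⟩

/-- `Ш(E_D)` has no 2-primary part -/
theorem noSha {D : ℕ} (h : Family D) (hg : ¬ Factorisation D) :
    Finite (E D).toAffine.Point ∧ ∀ (n : ℕ) (x : Sha (E D)), 2 ^ n • x = 0 → x = 0 := by
  have hG := (good_iff h).1 hg
  obtain ⟨hsq, h4, h7⟩ := h
  obtain ⟨j, hj⟩ : ∃ j, D = 1 + 4 * j := ⟨D / 4, by omega⟩
  have hRz := (rz_gd hsq h4 h7).2 hG
  obtain ⟨h1, h2⟩ := (Pool.Agent.N818.TD.same hj).1 hRz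
  rw [E_eq hj]
  exact ⟨h1, fun n x hx => sub_pow' (fun x hx => h2 x (by rw [two_nsmul]; exact hx)) n x hx⟩

theorem shaIs_uniq {D k k' : ℕ} (h : ShaIs D k) (h' : ShaIs D k') : k = k' := by
  have h1 := h.2.1
  rw [h'.2.1] at h1
  exact (Nat.pow_right_injective (le_refl 2) h1).symm

theorem card_true (X : ℕ) : (open Classical in
    ((((Finset.Icc 1 X).filter fun D => Family D).card : ℕ) : ℝ)) = ((SS X).card : ℝ) := by
  classical
  rw [← card_cls]
  refine congrArg (fun s : Finset ℕ => (s.card : ℝ)) ?_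
  ext D
  simp only [Finset.mem_filter]
  exact Iff.rfl

theorem card_good (hC : ∀ D : ℕ, Family D → ¬ Factorisation D →
    ∃ k : ℕ, (k : ℤ) = δ D ∧ ShaIs D k) (X : ℕ) (P : ℤ → Prop) :
    (open Classical in ((((Finset.Icc 1 X).filter fun D => Family D ∧
      (¬ Factorisation D ∧ ∃ k : ℕ, P k ∧ ShaIs D k)).card : ℕ) : ℝ)) =
    (open Classical in (((SS X).filter fun S => Gd AA bb S ∧ P (kd S)).card : ℝ)) := by
  classical
  have h1 := Pool.Agent.N713.ND.NS.card_eq X (fun S => Gd AA bb S ∧ P (kd S))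
  have h2 : ((Finset.Icc 1 X).filter fun D => Family D ∧
      (¬ Factorisation D ∧ ∃ k : ℕ, P k ∧ ShaIs D k)).card =
      ((Finset.Icc 1 X).filter fun D => Squarefree D ∧ D % 4 = 1 ∧ ¬ 7 ∣ D ∧
        (Gd AA bb D.primeFactors ∧ P (kd D.primeFactors))).card := by
    congr 1
    ext D
    simp only [Finset.mem_filter]
    refine and_congr_right fun _ => ?_
    constructor
    · rintro ⟨hF, hg, k, hk, hT⟩
      refine ⟨hF.1, hF.2.1, hF.2.2, (good_iff hF).1 hg, ?_⟩
      obtain ⟨k', hk', hT'⟩ := hC D hF hg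
      rw [shaIs_uniq hT hT'] at hk
      rw [← δ_eq hF.2.1 hF.2.2, ← hk']
      exact hk
    · rintro ⟨g1, g2, g3, g4, g5⟩
      have hF : Family D := ⟨g1, g2, g3⟩
      have hg := (good_iff hF).2 g4
      obtain ⟨k, hk, hT⟩ := hC D hF hg
      refine ⟨hF, hg, k, ?_, hT⟩
      rw [← δ_eq g2 g3, ← hk] at g5
      exact g5
  refine congrArg Nat.cast ?_
  refine Eq.trans ?_ (h2.trans ?_)
  · congr
  · convert h1

end proof

/-- The constant `κ = 0.4194...`. -/
noncomputable def κ : ℝ := ∏' i : ℕ, (1 - (1 / 2 : ℝ) ^ (2 * i + 1))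

/-- **The exact structure of `Ш(E'_D/ℚ)[2^∞]` and its law.** For every squarefree `D ≡ 1 mod 4` prime
to `7` without a factorisation, `E_D(ℚ)`, `E'_D(ℚ)` are finite, `Ш(E_D)[2^∞] = 0` and
`Ш(E'_D)[2^∞] ≅ (ℤ/2)^δ(D)`; for every `V` the proportion of these `D` with `δ(D) ≥ V` tends to `κ/2`;
the proportion of those with `δ(D) ≥ t √(log log X / 2)` tends to `κ (1 - Φ(t))`, `t > 0`. -/
theorem result :
    (∀ D : ℕ, Family D → ¬ Factorisation D →
      (Finite (E D).toAffine.Point ∧ ∀ (n : ℕ) (x : Sha (E D)), 2 ^ n • x = 0 → x = 0) ∧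
      ∃ k : ℕ, (k : ℤ) = δ D ∧ ShaIs D k) ∧
    (∀ V : ℕ, Filter.Tendsto (prop fun D => ¬ Factorisation D ∧ ∃ k : ℕ, V ≤ k ∧ ShaIs D k)
      Filter.atTop (nhds (κ / 2))) ∧
    (∀ t : ℝ, 0 < t → Filter.Tendsto (fun X : ℕ => prop (fun D => ¬ Factorisation D ∧
        ∃ k : ℕ, t * Real.sqrt (Real.log (Real.log X) / 2) ≤ k ∧ ShaIs D k) X)
      Filter.atTop (nhds (κ * (ProbabilityTheory.gaussianReal 0 1).real (Set.Ioi t)))) ∧
    0.4194 < κ ∧ κ < 0.4195 := by
  have hc : ∀ D : ℕ, Family D → ¬ Factorisation D → ∃ k : ℕ, (k : ℤ) = δ D ∧ ShaIs D k :=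
    fun D h hg => struct h Pool.Agent.N407.SL.t_N2 Pool.Agent.N499.SL.t_S2 Pool.Agent.N482.SL.t_NP
      Pool.Agent.N482.SL.t_NR Pool.Agent.N402.SL.t_SP Pool.Agent.N849.SL.t_LA
      Pool.Agent.N407.SL.t_LB Pool.Agent.N407.SL.t_LC hg
  refine ⟨fun D h hg => ⟨noSha h hg, hc D h hg⟩, fun V => ?_, fun t ht => ?_, ?_⟩
  · have h := Pool.Agent.N818.SL.dens_V V
    refine h.congr fun X => ?_
    have h1 := card_good hc X (fun z => (V : ℤ) ≤ z)
    unfold prop
    rw [card_true]
    congr 1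
    refine Eq.trans ?_ (h1.symm.trans ?_)
    · congr
    · refine congrArg (fun s : Finset ℕ => (s.card : ℝ)) ?_
      ext D
      simp only [Finset.mem_filter, Nat.cast_le]
  · have h := Pool.Agent.N818.SL.law Pool.Agent.N803.SL.GK.t_GK Pool.Agent.N494.SL.t_GL ht
    refine h.congr fun X => ?_
    have h1 := card_good hc X (fun z => t * Real.sqrt (Real.log (Real.log X) / 2) ≤ (z : ℝ))
    unfold prop
    rw [card_true]
    congr 1
    refine Eq.trans ?_ (h1.symm.trans ?_)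
    · congr
    · refine congrArg (fun s : Finset ℕ => (s.card : ℝ)) ?_
      ext D
      simp only [Finset.mem_filter, Int.cast_natCast]
  · have h := Pool.Agent.Y948.CQ.t_C2
    exact ⟨h.2.2.2.1, h.2.2.2.2⟩

end Pool.Agent.Results.MP_a43263_nt.LawOfShaX49
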