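import Pool.Agent.N869.GK.Z.Pat

/-!
# `Ш` of several general elliptic curves over the multiquadratic fields of a fixed conductor

Let `E_1, …, E_m` be any elliptic curves over `ℚ` with full rational 2-torsion and without a rational cyclic
isogeny of degree four (`y² = (x - e 0) (x - e 1) (x - e 2)`, no product `(e i - e j) (e i - e l)` a square),
without any condition on complex multiplication, modularity or the analytic rank, with even 2-Selmer
ranks, and such that the differences of the roots of different curves do not agree modulo squares (for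
example different positive twists of one curve, or curves that are not related at all). Let `n ≥ 2`, and let
`2 N` be divisible by all the bad primes. For a squarefree number `f` prime to `2 N` we consider all the totally
real fields `F = ℚ(√d_1, …, √d_n)` of degree `2 ^ n` and of conductor `f` in which the primes dividing `2 N`
split completely, and the abelian varieties `A_k = Res_{F/ℚ} E_k` of dimension `2 ^ n` over `ℚ`, for which
`A_k(ℚ) = E_k(F)` and `Ш(A_k/ℚ) = Ш(E_k/F)` (the theorem is stated for `Ш(E_k/F)`).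

For ALMOST EVERY SINGLE conductor `f` (natural density one), and not only on the average over `f`:

* the proportion of the fields for which all the `m (2 ^ n - 1)` nontrivial twists `E_k^{d_T}`, `d_T = ∏_{i ∈ T} d_i`,
  `T ≠ ∅`, have rank `0` and no element of order two in `Ш`, is as close as we like to
  `κ ^ (m (2 ^ n - 1))`, `κ = ∏_{i ≥ 0} (1 - 2 ^ (-2 i - 1)) = 0.4194…`: all the twists of all the curves are
  independent;
* the proportion of the fields for which this is true for AT LEAST ONE of the curves `E_1, …, E_m` is as close as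
  we like to `1 - (1 - κ ^ (2 ^ n - 1)) ^ m`, so to `1` if the list of the curves is long;
* if this is true for `E_k` there is no growth: `rank E_k(F) = rank E_k(ℚ)`, the 2-primary part of
  `Ш(E_k/F)` is finite if and only if the 2-primary part of `Ш(E_k/ℚ)` is finite, and if `2 ^ j` kills the latter
  then `2 ^ (n + j)` kills the former. If in addition the 2-Selmer rank of `E_k/ℚ` is `0` then `E_k(F)` is finite
  (rank `0`) and `Ш(E_k/F)[2^∞]` is finite and killed by `2 ^ n`.

* (joint law, law of large numbers inside the fields) the set of the `M = m (2 ^ n - 1)` pairs `(k, T)`, `T ≠ ∅`, for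
  which `E_k^{d_T}` has rank `0` and `Ш(E_k^{d_T}/ℚ)[2^∞] = 0` is distributed like a random set which contains each
  pair with the probability `κ`, independently; so for nearly all the fields this is true for nearly
  `41.9` percent of the pairs. The abelian variety `A_k` is isogenous to the product of the `E_k^{d_T}`, so for
  nearly all the fields `A_1 × ⋯ × A_m` has a factor (up to isogeny) of dimension at least
  `(κ - ε) m (2 ^ n - 1)`, of rank `0` and with finite `Ш[2^∞]`.

Every field is counted the same number of times (the number of the bases of its group of characters), so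
the proportions of the tuples are the proportions of the fields. So the question of the finiteness of the
2-primary part of `Ш` is reduced to the one over `ℚ` for an exactly known positive proportion of all the
fields of almost every conductor, for several curves at the same time, and it is settled for nearly all
the fields for some curve of a long list of curves with minimal 2-Selmer groups over `ℚ`. Before, such results
were known only for quadratic fields (`n = 1`, Kane, Smith), for special primes, or with the averages over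
all conductors.

Proof. The 2-Selmer groups of the twists are the kernels of matrices over `𝔽₂` given by the quadratic symbols
between the primes dividing the twist and their classes in a finite group; the local conditions at the
bad places are maximal isotropic subspaces (the orders of `E(ℚ_p)/2E(ℚ_p)`). First and second
moments over random colourings of the primes dividing `f`, boxes of large primes, the large sieve for
quadratic symbols, all the moments of the numbers of solutions for all the systems at once (sums over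
decorations, sets stable under products of matrix algebras), and an inversion of the moments with given
parity; from the twists to the field: restriction and corestriction for cocycles
(`Pool/Agent/N869/GK`; parts by helpers 3, 7, 9, 19, 27, 42, 49, 55, 67, 91, 128, 163, 170, 195,
199, 221, 247, 263, 265, 271, 273, 286, 300, 306, 314, 340, 342, 344, 364, 372, 383, 386, 391, 395, 401, 413,
434, 454, 475, 478, 488, 495, 514, 527, 558, 572, 588, 592, 595, 603, 617, 655, 661, 690, 693, 700, 701, 713,
723, 803, 814, 833, 835, 853, 869, 891, 901, 933, 954;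
the passage to the field: helpers 841, 723 and others).
-/

set_option autoImplicit false

namespace Pool.Agent.Results.MP_a43263_nt.NoGrowthInFields

open Pool.Agent.N869.GK.Z (E tw Kane Apart rank Sha SelRank FinTwo Killed Conductor Disc Independent
  IsMultiquadratic NoGrowth AlmostAll kappa)

/-- The tuples `(d_1, …, d_n)` such that `ℚ(√d_1, …, √d_n)` has degree `2 ^ n` and conductor `f` and the primes
dividing `2 N` split completely. -/
def fields (N n f : ℕ) : Set (Fin n → ℕ) :=
  {d | (∀ i, d i ∣ f ∧ Disc N (d i)) ∧ Independent d ∧ ∀ p : ℕ, p.Prime → p ∣ f → ∃ i, p ∣ d i}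

/-- All the twists `E^{d_T}`, `T ≠ ∅`, over `ℚ` have rank zero and no element of order two in `Ш`. -/
def Minimal {n : ℕ} (d : Fin n → ℕ) (e : Fin 3 → ℤ) : Prop :=
  ∀ T : Finset (Fin n), T.Nonempty → rank ℚ (tw (∏ i ∈ T, (d i : ℤ)) e) = 0 ∧
    ∀ x : Sha ℚ (tw (∏ i ∈ T, (d i : ℤ)) e), x + x = 0 → x = 0

/-- There are fields of conductor `f`, finitely many, and the proportion of those with the property `P`
differs from `q` by at most `δ`. -/
def Close (N : ℕ) {n : ℕ} (P : (Fin n → ℕ) → Prop) (q δ : ℝ) (f : ℕ) : Prop :=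
  (fields N n f).Finite ∧ 0 < (fields N n f).ncard ∧
    |({d ∈ fields N n f | P d}.ncard : ℝ) / ((fields N n f).ncard : ℝ) - q| ≤ δ

/-- There are fields of conductor `f`, finitely many, and the proportion of those with the property `P` is at
least `q - δ`. -/
def AtLeast (N : ℕ) {n : ℕ} (P : (Fin n → ℕ) → Prop) (q δ : ℝ) (f : ℕ) : Prop :=
  (fields N n f).Finite ∧ 0 < (fields N n f).ncard ∧
    q - δ ≤ ({d ∈ fields N n f | P d}.ncard : ℝ) / ((fields N n f).ncard : ℝ)

/-- The twist of the curve by `d_T = ∏_{i ∈ T} d_i` has rank `0` and the 2-primary part of its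
Tate-Shafarevich group over `ℚ` is `0`. -/
def Trivial (e : Fin 3 → ℤ) {n : ℕ} (d : Fin n → ℕ) (T : Finset (Fin n)) : Prop :=
  rank ℚ (tw (∏ i ∈ T, (d i : ℤ)) e) = 0 ∧
    ∀ x : Sha ℚ (tw (∏ i ∈ T, (d i : ℤ)) e), (∃ j : ℕ, 2 ^ j • x = 0) → x = 0

open Classical in
/-- the set of the pairs `(k, T)`, `T ≠ ∅`, for which `E_k^{d_T}` is trivial -/
noncomputable def good {m : ℕ} (e : Fin m → Fin 3 → ℤ) {n : ℕ} (d : Fin n → ℕ) :
    Finset (Fin m × Finset (Fin n)) :=
  ((Finset.univ : Finset (Fin m)) ×ˢ ((Finset.univ : Finset (Finset (Fin n))).erase ∅)).filter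
    fun a => Trivial (e a.1) d a.2

section proof

open Pool.Agent.N869.GK

lemma fields_eq (N n f : ℕ) : fields N n f = Z.fam N true n f := by
  ext d
  constructor
  · rintro ⟨h1, h2, h3⟩
    exact ⟨h1, h2, fun _ => h3⟩
  · rintro ⟨h1, h2, h3⟩
    exact ⟨h1, h2, h3 rfl⟩

lemma pos_of {N n f : ℕ} (hf : Conductor N f) {d : Fin n → ℕ} (hd : d ∈ fields N n f) (i : Fin n) :
    0 < d i := Nat.pos_of_ne_zero fun h => hf.1.ne_zero (zero_dvd_iff.1 (h ▸ (hd.1 i).1))

lemma minimal_iff {N : ℕ} {e : Fin 3 → ℤ} (h : Kane N e) {n : ℕ} {d : Fin n → ℕ}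
    (hd : ∀ i, 0 < d i) :
    Z.Mi e ((Finset.univ : Finset (Finset (Fin n))).erase ∅) d ↔ Minimal d e := by
  have hne : ∀ T : Finset (Fin n), ∏ i ∈ T, (d i : ℤ) ≠ 0 := fun T =>
    Finset.prod_ne_zero_iff.2 fun i _ => by exact_mod_cast (hd i).ne'
  constructor
  · intro hM T hT
    exact (Z.selrank_zero h (hne T)).1
      (hM T (Finset.mem_erase.2 ⟨Finset.nonempty_iff_ne_empty.1 hT, Finset.mem_univ _⟩))
  · intro hM T hT
    exact (Z.selrank_zero h (hne T)).2
      (hM T (Finset.nonempty_iff_ne_empty.2 (Finset.ne_of_mem_erase hT)))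

lemma growth {N : ℕ} {e : Fin 3 → ℤ} (h : Kane N e) {n : ℕ} {d : Fin n → ℕ}
    (hd : ∀ i, 0 < d i) (hM : Minimal d e) : NoGrowth d e := by
  refine Z.no_growth' h hd fun T hT => ?_
  have hne : ∏ i ∈ T, (d i : ℤ) ≠ 0 :=
    Finset.prod_ne_zero_iff.2 fun i _ => by exact_mod_cast (hd i).ne'
  exact ((Z.selrank_iff h hne 0).1 ((Z.selrank_zero h hne).2 (hM T hT))).le

lemma prim {G : Type} [AddCommGroup G] (h : ∀ x : G, x + x = 0 → x = 0) (j : ℕ) :
    ∀ x : G, 2 ^ j • x = 0 → x = 0 := by
  induction j with
  | zero =>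
    intro x hx
    rwa [pow_zero, one_smul] at hx
  | succ j ih =>
    intro x hx
    apply ih
    apply h
    rw [← two_nsmul, ← mul_nsmul, ← pow_succ]
    exact hx

lemma triv_iff {N : ℕ} {e : Fin 3 → ℤ} (h : Kane N e) {n : ℕ} {d : Fin n → ℕ}
    (hd : ∀ i, 0 < d i) (T : Finset (Fin n)) :
    SelRank (tw (∏ i ∈ T, (d i : ℤ)) e) 0 ↔ Trivial e d T := by
  have hne : ∏ i ∈ T, (d i : ℤ) ≠ 0 :=
    Finset.prod_ne_zero_iff.2 fun i _ => by exact_mod_cast (hd i).ne'
  rw [Z.selrank_zero h hne]
  constructor
  · rintro ⟨h1, h2⟩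
    exact ⟨h1, fun x ⟨j, hj⟩ => prim h2 j x hj⟩
  · rintro ⟨h1, h2⟩
    exact ⟨h1, fun x hx => h2 x ⟨1, by rw [pow_one, two_nsmul]; exact hx⟩⟩

lemma good_eq {N : ℕ} {m : ℕ} {e : Fin m → Fin 3 → ℤ} (he : ∀ k, Kane N (e k)) {n : ℕ}
    {d : Fin n → ℕ} (hd : ∀ i, 0 < d i) :
    Z.sat ((Finset.univ : Finset (Finset (Fin n))).erase ∅) (Z.IsMin e d) = good e d := by
  have h1 : Z.sat ((Finset.univ : Finset (Finset (Fin n))).erase ∅)
      (fun k T => Trivial (e k) d T) = good e d := rfl
  rw [← h1]
  exact Z.sat_congr fun k T _ => triv_iff (he k) hd T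

lemma zero_case {N : ℕ} {e : Fin 3 → ℤ} (h : Kane N e) {n : ℕ} {d : Fin n → ℕ}
    (hg : NoGrowth d e) (h0 : SelRank e 0) (F : Type) [Field F] [NumberField F]
    (hF : IsMultiquadratic d F) : rank F e = 0 ∧ FinTwo F e ∧ Killed F e n := by
  have h1 : SelRank (tw 1 e) 0 := by rw [Z.tw_one]; exact h0
  obtain ⟨h2, h3⟩ := (Z.selrank_zero h one_ne_zero).1 h1
  rw [Z.tw_one] at h2 h3
  have hk : Killed ℚ e 0 := fun x hx => by
    obtain ⟨j, hj⟩ := hx
    rw [prim h3 j x hj, smul_zero]
  have hf : FinTwo ℚ e := by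
    refine (Set.finite_singleton (0 : Sha ℚ e)).subset ?_
    rintro x ⟨j, hj⟩
    exact prim h3 j x hj
  obtain ⟨g1, g2, g3⟩ := hg F hF
  exact ⟨g1.trans h2, g2.2 hf, g3 0 hk⟩

lemma near_close {N n : ℕ} {P Q : (Fin n → ℕ) → Prop} {q δ : ℝ} {f : ℕ}
    (h : Z.Near N true P q δ f) (hPQ : ∀ d ∈ fields N n f, P d ↔ Q d) : Close N Q q δ f := by
  have hPQ' : ∀ x ∈ Z.fam N true n f, P x ↔ Q x := by
    rw [← fields_eq]
    exact hPQ
  obtain ⟨h1, h2, h3⟩ := h.congr hPQ'
  rw [← fields_eq] at h1 h2 h3
  exact ⟨h1, h2, h3⟩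

lemma least_least {N n : ℕ} {P Q : (Fin n → ℕ) → Prop} {q δ : ℝ} {f : ℕ}
    (h : Z.AtLeast N true P q δ f) (hPQ : ∀ d ∈ fields N n f, P d → Q d) : AtLeast N Q q δ f := by
  have hPQ' : ∀ x ∈ Z.fam N true n f, P x → Q x := by
    rw [← fields_eq]
    exact hPQ
  obtain ⟨h1, h2, h3⟩ := h.mono hPQ'
  rw [← fields_eq] at h1 h2 h3
  exact ⟨h1, h2, h3⟩

end proof

/-- **Main theorem.** Let `E_1, …, E_m` be elliptic curves as above, with even 2-Selmer ranks, and `n ≥ 2`.
(1) For almost all squarefree `f` prime to `2 N` the proportion of the fields `F` of conductor `f` for which, for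
ALL `k`, all the nontrivial twists of `E_k` by the characters of `F` have rank zero and no element of order two
in `Ш`, differs from `κ ^ (m (2 ^ n - 1))` by at most `δ`. (2) The proportion of the fields for which this is true
for at least one `k` differs from `1 - (1 - κ ^ (2 ^ n - 1)) ^ m` by at most `δ`.
(3) In these cases there is no growth: the ranks over `F` and over `ℚ` are the same, and the 2-primary
part of `Ш(E_k/F)` is finite if and only if the one over `ℚ` is. (4) If the 2-Selmer rank of `E_k/ℚ` is `0` then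
`E_k(F)` has rank `0` and the 2-primary part of `Ш(E_k/F)` is finite and killed by `2 ^ n`. (5) The fields have
degree `2 ^ n`. (6) For every set `𝒥` of sets `J` of pairs `(k, T)`, `T ≠ ∅`, the proportion of the fields for which
the set of the pairs with trivial `E_k^{d_T}` (rank `0`, no 2-power torsion in `Ш`) is in `𝒥` differs from
`∑_{J ∈ 𝒥} κ ^ #J (1 - κ) ^ (M - #J)` by at most `δ`, `M = m (2 ^ n - 1)`. (7) If `m > 0`, then for all `ε > 0` the
proportion of the fields for which the number of the trivial pairs differs from `κ M` by at most `ε M` is at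
least `1 - κ (1 - κ) / (ε ^ 2 M) - δ`. -/
theorem result (N : ℕ) (hN : 0 < N) (m : ℕ) (e : Fin m → Fin 3 → ℤ) (he : ∀ k, Kane N (e k))
    (ha : ∀ k k', k ≠ k' → Apart (e k) (e k')) (hr : ∀ k, ∃ r, SelRank (e k) (2 * r))
    (n : ℕ) (hn : 2 ≤ n) :
    (∀ δ : ℝ, 0 < δ → AlmostAll (Conductor N)
      (Close N (fun d : Fin n → ℕ => ∀ k, Minimal d (e k)) (kappa ^ (m * (2 ^ n - 1))) δ)) ∧
    (∀ δ : ℝ, 0 < δ → AlmostAll (Conductor N)
      (Close N (fun d : Fin n → ℕ => ∃ k, Minimal d (e k)) (1 - (1 - kappa ^ (2 ^ n - 1)) ^ m) δ)) ∧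
    (∀ f : ℕ, Conductor N f → ∀ d ∈ fields N n f, ∀ k, Minimal d (e k) →
      NoGrowth d (e k) ∧ (SelRank (e k) 0 → ∀ (F : Type) [Field F] [NumberField F],
        IsMultiquadratic d F → rank F (e k) = 0 ∧ FinTwo F (e k) ∧ Killed F (e k) n)) ∧
    (∀ f : ℕ, ∀ d ∈ fields N n f, ∀ (F : Type) [Field F] [NumberField F], IsMultiquadratic d F →
      Module.finrank ℚ F = 2 ^ n) ∧
    (∀ 𝒥 : Finset (Finset (Fin m × Finset (Fin n))), (∀ J ∈ 𝒥, ∀ a ∈ J, a.2.Nonempty) →
      ∀ δ : ℝ, 0 < δ → AlmostAll (Conductor N) (Close N (fun d : Fin n → ℕ => good e d ∈ 𝒥)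
        (∑ J ∈ 𝒥, kappa ^ J.card * (1 - kappa) ^ (m * (2 ^ n - 1) - J.card)) δ)) ∧
    (0 < m → ∀ ε δ : ℝ, 0 < ε → 0 < δ → AlmostAll (Conductor N) (AtLeast N
      (fun d : Fin n → ℕ => |((good e d).card : ℝ) - kappa * (m * (2 ^ n - 1) : ℕ)| ≤
        ε * (m * (2 ^ n - 1) : ℕ))
      (1 - kappa * (1 - kappa) / (ε ^ 2 * (m * (2 ^ n - 1) : ℕ))) δ)) ∧
    0.4194 < kappa ∧ kappa < 0.4195 := by
  have hT : ∀ T ∈ (Finset.univ : Finset (Finset (Fin n))).erase ∅, T.Nonempty := fun T hT =>
    Finset.nonempty_iff_ne_empty.2 (Finset.ne_of_mem_erase hT)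
  have hcard : ((Finset.univ : Finset (Finset (Fin n))).erase ∅).card = 2 ^ n - 1 := by
    rw [Finset.card_erase_of_mem (Finset.mem_univ _), Finset.card_univ, Fintype.card_finset,
      Fintype.card_fin]
  refine ⟨fun δ hδ => ?_, fun δ hδ => ?_, fun f hf d hd k hM => ?_, fun f d hd F _ _ hF => ?_,
    fun 𝒥 h𝒥 δ hδ => ?_, fun hm ε δ hε hδ => ?_,
    Pool.Agent.N869.GK.Z.kappa_bd.1, Pool.Agent.N869.GK.Z.kappa_bd.2⟩
  · have key := Pool.Agent.N869.GK.Z.lawX0 hN he hr ha true n (fun _ => hn) _ hT hδ
    rw [hcard] at key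
    exact key.mono fun f hf h => near_close h fun d hd =>
      ⟨fun h k => (minimal_iff (he k) (pos_of hf hd)).1 fun T hT => h T hT k,
        fun h T hT k => (minimal_iff (he k) (pos_of hf hd)).2 (h k) T hT⟩
  · have key := Pool.Agent.N869.GK.Z.law_one hN he hr ha true n (fun _ => hn) _ hT hδ
    rw [hcard] at key
    exact key.mono fun f hf h => near_close h fun d hd =>
      exists_congr fun k => minimal_iff (he k) (pos_of hf hd)
  · have hg := growth (he k) (pos_of hf hd) hM
    exact ⟨hg, fun h0 F _ _ hF => zero_case (he k) hg h0 F hF⟩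
  · exact Pool.Agent.N869.GK.Z.finrank_mq hd.2.1 hF
  · have key := Pool.Agent.N869.GK.Z.law_pat' hN he hr ha true n (fun _ => hn) _ hT 𝒥
      (fun J hJ a ha => Finset.mem_product.2 ⟨Finset.mem_univ _, Finset.mem_erase.2
        ⟨Finset.nonempty_iff_ne_empty.1 (h𝒥 J hJ a ha), Finset.mem_univ _⟩⟩) hδ
    rw [hcard] at key
    exact key.mono fun f hf h => near_close h fun d hd => by rw [good_eq he (pos_of hf hd)]
  · have hM : 0 < m * ((Finset.univ : Finset (Finset (Fin n))).erase ∅).card := by
      rw [hcard]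
      exact Nat.mul_pos hm (Nat.sub_pos_of_lt (Nat.one_lt_two_pow (by omega)))
    have key := Pool.Agent.N869.GK.Z.law_num hN he hr ha true n (fun _ => hn) _ hT hM hε hδ
    rw [hcard] at key
    exact key.mono fun f hf h => least_least h fun d hd h => by
      rwa [good_eq he (pos_of hf hd)] at h

end Pool.Agent.Results.MP_a43263_nt.NoGrowthInFields
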