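import Pool.Agent.N843.WR.X49

/-!
# The Tate-Shafarevich groups of the Weil restrictions of `X_0(49)`

`E` is the curve `y² + x y = x³ - x² - 2 x - 1` over `ℚ`, of conductor `49`, and `K = ℚ(√-7)`, that is, a
number field of degree two with an integer `a` such that `a² = a - 2`. Let `d_1, …, d_n` be squarefree
integers of `K`, congruent to `1` modulo `4` and prime to `√-7 = 2 a - 1`, independent modulo squares, and
`L = K(√d_1, …, √d_n)` (`n = 0`: `L = K`). The tuple (and the field `L`) is called good if the twists over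
`K` of `E` by all the `2 ^ n` products of some of the `d_i` have finitely many points over `K` and no element
of order two in `Ш` (a condition on the side of algebra only). Let `A = Res_{L/ℚ} E` be the Weil restriction,
an abelian variety over `ℚ` of dimension `2 ^ (n + 1)`; over an algebraically closed field its points are the
families of points of `E`, indexed by the embeddings of `L`.

* If `L` is good then `A(ℚ) = E(L)` has exactly four elements, the 2-primary part of `Ш(A)` is finite and
  killed by `2 ^ n`, and the L-series of `A`, that is, `L(E/L, s)`, times finitely many Euler polynomials is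
  entire and not zero at `1`. For every product `d_T` of some of the `d_i` (`T` not empty), the order of the
  group `Ш(A)[2]` is at least `4 ^ (t - n - 1)`, where `t` is the number of the places of `K` that divide the
  squarefree part of `d_T`.
* For every good `L` and every `B` the integers `e` for which `L(√e)` is again good and
  `Ш(Res_{L(√e)/ℚ} E)[2]` has at least `B` elements have the natural density **exactly** `c2 ^ (2 ^ n)`,
  `c2 = ∏_{i ≥ 1} (1 - 2^(-i)) = 0.288…`, among all the squarefree `e ≡ 1 mod 4` prime to `√-7` and the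
  `d_i`, ordered by the norm.
* `K` is good, and every good `L` is the first layer of an infinite tower of good fields
  `L_k = L(√q_0, …, √q_(k-1))` for which the orders of the finite groups `Ш(A_k)[2]` grow faster than any given
  function of `k`, while `A_k(ℚ) = E(L_k)` has exactly four elements for all `k`.

The lemma of Shapiro `Ш(Res_{L/ℚ} E) = Ш(E/L)` (Milne) is proved in `Pool/Agent/N843/WR/Sh.lean`. The lower
bound comes from the formula over the quadratic extensions of `K` (`MP_9ab903_nt/TwoPartX49Quadratic`, of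
helper873) and the kernel of the restriction, `Pool/Agent/N843/TT/Rk.lean`; the statement over `L` is
`MP_cd906c_nt/MultiquadraticX49` (starting file), the joint law of the twists is in `Pool/Agent/R426/QJ`.
-/

set_option autoImplicit false

namespace Pool.Agent.Results.MP_a43263_nt.ShaTowersX49

open NumberField IsDedekindDomain Filter
open Pool.Agent.Results.MP_cd906c_nt.MultiquadraticX49 (curve InClass NoSelmer Independent
  EntirePart c2)
open Pool.Agent.Results.MP_9ab903_nt.TwoPartX49Quadratic (X49 nPlaces)
open Pool.Agent.N843.WR (RSha RRat)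

/-- The tuple `d` is good: for all the `N` in the class (squarefree, congruent to `1` modulo `4`, prime to
`√-7`) that are, up to squares, a product of some of the `d i`, the twist `E_N` of `X_0(49)` has finitely many
points over `K` and no element of order two in `Ш(E_N/K)`. -/
def Good {K : Type} [Field K] [NumberField K] (a : 𝓞 K) {n : ℕ} (d : Fin n → 𝓞 K) : Prop :=
  ∀ (T : Finset (Fin n)) (N c : 𝓞 K), InClass a N → c ≠ 0 → ∏ i ∈ T, d i = N * c ^ 2 →
    NoSelmer (curve (N : K))

/-- The statement for the abelian variety `A = Res_{L/ℚ} X_0(49)` over `ℚ`, where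
`L = K(√d_1, …, √d_n)`: the degree of `L` is `2 ^ (n + 1)`, the group `A(ℚ)` has exactly four elements, the
2-primary part of `Ш(A)` is finite and killed by `2 ^ n`, and the L-series of `A`, without the Euler factors
at the places dividing `14 ∏ d_i`, is entire and not zero at `1`. -/
def FiniteSha {K : Type} [Field K] [NumberField K] {n : ℕ} (d : Fin n → 𝓞 K) : Prop :=
  ∀ (L : Type) [Field L] [NumberField L] [Algebra K L] (x : Fin n → L),
    (∀ i, x i ^ 2 = algebraMap K L (d i)) → IntermediateField.adjoin K (Set.range x) = ⊤ →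
      Module.finrank ℚ L = 2 ^ (n + 1) ∧ Nat.card (RRat (X49 ℚ) L) = 4 ∧
      {y : RSha (X49 ℚ) L | ∃ k : ℕ, 2 ^ k • y = 0}.Finite ∧
      (∀ (k : ℕ) (y : RSha (X49 ℚ) L), 2 ^ k • y = 0 → 2 ^ n • y = 0) ∧
      EntirePart (X49 L) (algebraMap (𝓞 K) (𝓞 L) (14 * ∏ i, d i))

/-- The order of the group of the elements killed by two in `Ш(Res_{L/ℚ} X_0(49))` (zero if it is
infinite). -/
noncomputable def shaTwo (L : Type) [Field L] [NumberField L] : ℕ :=
  Nat.card {y : RSha (X49 ℚ) L // 2 • y = 0}

/-- For all the nonempty `T`, if `∏_{i ∈ T} d_i` is `N` in the class, up to squares, and `t` is the number of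
the places of `K` that divide `N`, then `Ш(Res_{L/ℚ} X_0(49))[2]` has at least `4 ^ (t - n - 1)` elements. -/
def LowerBound {K : Type} [Field K] [NumberField K] (a : 𝓞 K) {n : ℕ} (d : Fin n → 𝓞 K) : Prop :=
  ∀ (T : Finset (Fin n)) (N c : 𝓞 K), T.Nonempty → InClass a N → c ≠ 0 →
    ∏ i ∈ T, d i = N * c ^ 2 →
      ∀ (L : Type) [Field L] [NumberField L] [Algebra K L] (x : Fin n → L),
        (∀ i, x i ^ 2 = algebraMap K L (d i)) → IntermediateField.adjoin K (Set.range x) = ⊤ →
          4 ^ nPlaces N ≤ 4 ^ (n + 1) * shaTwo L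

/-- The group `Ш(Res_{L/ℚ} X_0(49))[2]`, where `L = K(√d_1, …, √d_n)`, has at least `B` elements. -/
def Large {K : Type} [Field K] [NumberField K] (B : ℕ) {n : ℕ} (d : Fin n → 𝓞 K) : Prop :=
  ∀ (L : Type) [Field L] [NumberField L] [Algebra K L] (x : Fin n → L),
    (∀ i, x i ^ 2 = algebraMap K L (d i)) → IntermediateField.adjoin K (Set.range x) = ⊤ →
      B ≤ shaTwo L

/-- The elements of norm at most `X` of the class that are prime to the `d_i`. -/
def family {K : Type} [Field K] [NumberField K] (a : 𝓞 K) {n : ℕ} (d : Fin n → 𝓞 K) (X : ℕ) :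
    Set (𝓞 K) :=
  {e | Ideal.absNorm (Ideal.span {e}) ≤ X ∧ InClass a e ∧ ∀ i, IsCoprime e (d i)}

/-- The elements `e` of the family for which the tuple `(d_1, …, d_n, e)` is independent modulo squares and
good, and `Ш(Res_{M/ℚ} X_0(49))[2]`, `M = K(√d_1, …, √d_n, √e)`, has at least `B` elements. -/
def next {K : Type} [Field K] [NumberField K] (a : 𝓞 K) (B : ℕ) {n : ℕ} (d : Fin n → 𝓞 K) (X : ℕ) :
    Set (𝓞 K) :=
  {e ∈ family a d X | Independent (Fin.snoc d e : Fin (n + 1) → 𝓞 K) ∧
    Good a (Fin.snoc d e : Fin (n + 1) → 𝓞 K) ∧ Large B (Fin.snoc d e : Fin (n + 1) → 𝓞 K)}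

section proof

variable {K : Type} [Field K] [NumberField K] {a : 𝓞 K} {n : ℕ} {d : Fin n → 𝓞 K}

lemma shaTwo_eq (L : Type) [Field L] [NumberField L] :
    shaTwo L = Pool.Agent.N843.TT.Rs.sha2 (X49 L) := Pool.Agent.N843.WR.card_two L

lemma large_iff (B : ℕ) {n : ℕ} (d : Fin n → 𝓞 K) :
    Large B d ↔ Pool.Agent.N843.TT.ShaGe B d := by
  unfold Large Pool.Agent.N843.TT.ShaGe
  simp only [shaTwo_eq]

lemma finite_of (ha : a ^ 2 = a - 2) (hK : Module.finrank ℚ K = 2) (hd : ∀ i, InClass a (d i))
    (hind : Independent d) (hg : Good a d) : FiniteSha d := by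
  intro L _ _ _ x hx hL
  obtain ⟨h1, -, -, h2, h3, h4⟩ := Pool.Agent.N843.TT.overX ha hK hd hind hg L x hx hL
  refine ⟨?_, ?_, Pool.Agent.N843.WR.fin_of L h3, Pool.Agent.N843.WR.kill_of L h4, h2⟩
  · rw [← Module.finrank_mul_finrank ℚ K L, hK, h1, pow_succ, mul_comm]
  · rw [Pool.Agent.N843.WR.card_rat]
    exact Pool.Agent.N843.TT.fourX ha hK hd hind hg L x hx hL

lemma lower_of (ha : a ^ 2 = a - 2) (hK : Module.finrank ℚ K = 2) (hd : ∀ i, InClass a (d i))
    (hind : Independent d) (hg : Good a d) : LowerBound a d := by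
  intro T N c hT hN hc h L _ _ _ x hx hL
  rw [shaTwo_eq]
  exact Pool.Agent.N843.TT.sha_low ha hK hd hind hg L x hx hL hT hN hc h

end proof

/-- **Main theorem.** Finiteness of the 2-primary part of `Ш` of the abelian varieties
`Res_{L/ℚ} X_0(49)` for the good `L`, and a lower bound for its order; the exact natural density of the next
fields; and infinite towers over every good field in which the orders grow as fast as we please. -/
theorem result (K : Type) [Field K] [NumberField K] (a : 𝓞 K) (ha : a ^ 2 = a - 2)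
    (hK : Module.finrank ℚ K = 2) :
    -- the field `K` is good
    (∀ d : Fin 0 → 𝓞 K, Good a d) ∧
    ∀ (n : ℕ) (d : Fin n → 𝓞 K), (∀ i, InClass a (d i)) → Independent d → Good a d →
      -- the Tate-Shafarevich group for a good tuple
      FiniteSha d ∧ LowerBound a d ∧
      -- the next field
      (∀ B : ℕ, Tendsto (fun X : ℕ => ((next a B d X).ncard : ℝ) / ((family a d X).ncard : ℝ)) atTop
        (nhds (c2 ^ (2 ^ n)))) ∧
      (∃ δ : ℝ, 0 < δ ∧ ∀ᶠ X : ℕ in atTop, δ * X ≤ ((family a d X).ncard : ℝ)) ∧
      -- infinite towers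
      (∀ b : ℕ → ℕ, ∃ q : ℕ → 𝓞 K, (∀ j, InClass a (q j)) ∧
        ∀ k, Independent (Fin.append d fun i : Fin k => q i) ∧
        Good a (Fin.append d fun i : Fin k => q i) ∧
        FiniteSha (Fin.append d fun i : Fin k => q i) ∧
        LowerBound a (Fin.append d fun i : Fin k => q i) ∧
        Large (b k) (Fin.append d fun i : Fin (k + 1) => q i)) ∧
      0.288 < c2 ∧ c2 < 0.289 := by
  obtain ⟨-, -, -, h3, h4⟩ := Pool.Agent.R426.QK.MOM.t_C2
  refine ⟨fun d => Pool.Agent.N843.TT.good_zero ha hK d, fun n d hd hind hg => ?_⟩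
  refine ⟨finite_of ha hK hd hind hg, lower_of ha hK hd hind hg, fun B => ?_,
    (Pool.Agent.N843.TT.law_large ha hK hd hind hg 0).2, fun b => ?_, h3, h4⟩
  · have h5 := Pool.Agent.N843.TT.law_sha ha hK hd hind hg B
    simp only [← large_iff] at h5
    exact h5
  · obtain ⟨q, q1, q2⟩ := Pool.Agent.N843.TT.towers_sha ha hK hd hind hg b
    refine ⟨q, q1, fun k => ?_⟩
    obtain ⟨k1, k2, k3⟩ := q2 k
    have hm : ∀ i, InClass a (Fin.append d (fun i : Fin k => q i) i) :=
      Pool.Agent.N843.TT.mem_append hd q1
    exact ⟨k1, k2, finite_of ha hK hm k1 k2, lower_of ha hK hm k1 k2, (large_iff _ _).2 k3⟩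

end Pool.Agent.Results.MP_a43263_nt.ShaTowersX49
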